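import Mathlib

namespace Pool.Agent.H.MP_b41bf9_ag

open MvPolynomial

variable {K : Type} [Field K]

/-- the map on points -/
def T (y : Fin 3 → K) : Fin 3 → K :=
  ![y 0 * (y 1 - y 2) * (y 0 * y 2), y 0 * (y 1 - y 2) * (y 0 * y 1), y 0 * (y 1 - y 2) * (y 2 * y 2)]

/-- cone coordinates -/
def P (u v w : K) : Fin 3 → K := ![w * u, w * v, w]

/-- scale factors -/
def c (u v : K) : ℕ → K
  | 0 => 1
  | n + 1 => c u v n ^ 4 * (u * (u ^ n * v - 1))

theorem T_P (u v w : K) : T (P u v w) = P u (u * v) (w ^ 4 * (u * (v - 1))) := by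
  ext i; fin_cases i <;> simp [T, P] <;> ring

theorem iter_P (u v w : K) (n : ℕ) :
    T^[n] (P u v w) = P u (u ^ n * v) (w ^ 4 ^ n * c u v n) := by
  induction n with
  | zero => simp [c]
  | succ n ih =>
    rw [Function.iterate_succ_apply', ih, T_P, c]
    congr 1
    · ring
    · rw [pow_succ 4 n, pow_mul]; ring

theorem eq_P (y : Fin 3 → K) (h : y 2 ≠ 0) : y = P (y 0 / y 2) (y 1 / y 2) (y 2) := by
  ext i; fin_cases i <;> simp [P] <;> field_simp

theorem T_zero : T (0 : Fin 3 → K) = 0 := by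
  ext i; fin_cases i <;> simp [T]

theorem iter_z (y : Fin 3 → K) (h : y 2 = 0) (n : ℕ) : (T^[n] y) 2 = 0 := by
  induction n with
  | zero => exact h
  | succ n ih => rw [Function.iterate_succ_apply']; simp [T, ih]

theorem c_ne (u v : K) (hu : u ≠ 0) (n : ℕ) (h : ∀ i < n, u ^ i * v ≠ 1) : c u v n ≠ 0 := by
  induction n with
  | zero => simp [c]
  | succ n ih =>
    exact mul_ne_zero (pow_ne_zero _ (ih fun i hi => h i (by omega)))
      (mul_ne_zero hu (sub_ne_zero.mpr (h n (by omega))))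

theorem dies (q : ℕ) (hq : 0 < q) (hfin : ∀ v : K, v ≠ 0 → ∃ N, 0 < N ∧ N.Coprime q ∧ v ^ N = 1)
    (y : Fin 3 → K) (hy : y 1 ^ q = y 0 * y 2 ^ (q - 1)) : ∃ n, 1 ≤ n ∧ T^[n] y = 0 := by
  by_cases h2 : y 2 = 0
  · refine ⟨2, by norm_num, ?_⟩
    ext i; fin_cases i <;> simp [T, h2]
  by_cases h0 : y 0 = 0
  · refine ⟨1, le_rfl, ?_⟩
    ext i; fin_cases i <;> simp [T, h0]
  have hu : y 0 / y 2 = (y 1 / y 2) ^ q := by
    obtain ⟨r, rfl⟩ : ∃ r, q = r + 1 := ⟨q - 1, by omega⟩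
    rw [div_pow, hy, Nat.add_sub_cancel, pow_succ]
    field_simp
  have hv : y 1 / y 2 ≠ 0 := by
    intro h
    rw [h, zero_pow hq.ne'] at hu
    exact div_ne_zero h0 h2 hu
  obtain ⟨N, hN, hc, h1⟩ := hfin _ hv
  obtain ⟨n, hn⟩ : ∃ n, N ∣ q * n + 1 := by
    obtain ⟨m, -, hm⟩ := Nat.exists_mul_mod_eq_of_coprime (N - 1) hc.symm hN.ne'
    refine ⟨m, (Nat.modEq_zero_iff_dvd).mp ?_⟩
    have h3 : q * m + 1 ≡ N - 1 + 1 [MOD N] := Nat.ModEq.add_right 1 hm
    rw [Nat.sub_add_cancel hN] at h3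
    exact h3.trans (Nat.modEq_zero_iff_dvd.mpr dvd_rfl)
  refine ⟨n + 1, by omega, ?_⟩
  obtain ⟨r, hr⟩ := hn
  have h4 : (y 0 / y 2) ^ n * (y 1 / y 2) - 1 = 0 := by
    rw [hu, ← pow_mul, ← pow_succ, hr, pow_mul, h1, one_pow, sub_self]
  rw [eq_P y h2, iter_P, c, h4]
  ext i; fin_cases i <;> simp [P]

theorem lives (u v : K) (hu : u ≠ 0) (hu1 : u ≠ 1) (hv : v ≠ 0) (h : ∀ i, u ^ i * v ≠ 1) (n : ℕ) :
    T (T^[n] (P u v 1)) ≠ T^[n] (P u v 1) := by
  intro e
  rw [← Function.iterate_succ_apply' T, iter_P, iter_P] at e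
  have h1 := congrFun e 1
  have h2 := congrFun e 2
  simp only [P, Matrix.cons_val_one, Matrix.cons_val_zero, Matrix.cons_val, one_pow,
    one_mul] at h1 h2
  rw [h2] at h1
  have h3 := mul_left_cancel₀ (c_ne u v hu n fun i _ => h i) h1
  have h4 := mul_right_cancel₀ hv h3
  rw [pow_succ] at h4
  exact hu1 (mul_left_cancel₀ (pow_ne_zero n hu) (h4.trans (mul_one _).symm))

theorem no_cover [IsAlgClosed K] (H : MvPolynomial (Fin 3) K) (hH : H ≠ 0) (q k m : ℕ)
    (hq : H.totalDegree < q)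
    (h : ∀ y : Fin 3 → K, y 1 ^ q = y 0 * y 2 ^ (q - 1) →
      ∃ y', eval y' H = 0 ∧ T^[m] y' = T^[k] y) : False := by
  classical
  obtain ⟨s0, hs0⟩ := support_nonempty.mpr hH
  have hb : ∀ s ∈ H.support, s 1 < q := fun s hs =>
    lt_of_le_of_lt ((monomial_le_degreeOf 1 hs).trans (degreeOf_le_totalDegree H 1)) hq
  obtain ⟨E, hE⟩ : ∃ E : (Fin 3 →₀ ℕ) → ℕ,
    E = fun s => s 1 + q * (s 0 + s 1 * k + m * (q - s 1)) := ⟨_, rfl⟩
  obtain ⟨D, hD⟩ : ∃ D : (Fin 3 →₀ ℕ) → ℕ, D = fun s => s 0 + s 1 + s 2 := ⟨_, rfl⟩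
  have good : ∀ v : K, v ≠ 0 → (∀ i < k, (v ^ q) ^ i * v ≠ 1) →
      ∑ s ∈ H.support with D s = D s0, coeff s H * v ^ E s = 0 := by
    intro v hv hk
    have hu : v ^ q ≠ 0 := pow_ne_zero _ hv
    have hc := c_ne (v ^ q) v hu k hk
    obtain ⟨v', hv'⟩ : ∃ v', v' = (v ^ q) ^ k * v / (v ^ q) ^ m := ⟨_, rfl⟩
    have hW : ∀ t : K, t ≠ 0 → ∃ w, eval (P (v ^ q) v' w) H = 0 ∧
        w ^ 4 ^ m * c (v ^ q) v' m = t := by
      intro t ht
      obtain ⟨z, hz⟩ := IsAlgClosed.exists_pow_nat_eq (t / c (v ^ q) v k)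
        (show 0 < 4 ^ k by positivity)
      obtain ⟨y', h1, h2⟩ := h (P (v ^ q) v z) (by
        obtain ⟨r, rfl⟩ : ∃ r, q = r + 1 := ⟨q - 1, by omega⟩
        simp [P]; ring)
      rw [iter_P, hz, div_mul_cancel₀ _ hc] at h2
      have h3 : y' 2 ≠ 0 := by
        intro h0
        have := iter_z y' h0 m
        rw [h2] at this
        exact ht this
      rw [eq_P y' h3] at h1 h2
      rw [iter_P] at h2
      have a0 := congrFun h2 0
      have a1 := congrFun h2 1
      have a2 := congrFun h2 2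
      simp only [P, Matrix.cons_val_one, Matrix.cons_val_zero, Matrix.cons_val] at a0 a1 a2
      rw [a2] at a0 a1
      have b0 := mul_left_cancel₀ ht a0
      have b1 := mul_left_cancel₀ ht a1
      rw [b0] at b1 h1 a2
      have b2 : y' 1 / y' 2 = v' := by
        rw [hv', eq_div_iff (pow_ne_zero _ hu), ← b1, mul_comm]
      rw [b2] at h1 a2
      exact ⟨_, h1, a2⟩
    obtain ⟨g, hg⟩ : ∃ g : Polynomial K, g = ∑ s ∈ H.support,
      Polynomial.monomial (D s) (coeff s H * ((v ^ q) ^ s 0 * v' ^ s 1)) := ⟨_, rfl⟩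
    have hge : ∀ w, g.eval w = eval (P (v ^ q) v' w) H := by
      intro w
      rw [hg, Polynomial.eval_finsetSum, eval_eq']
      refine Finset.sum_congr rfl fun s _ => ?_
      simp only [Polynomial.eval_monomial, Fin.prod_univ_three, P, hD, Matrix.cons_val_one,
        Matrix.cons_val_zero, Matrix.cons_val]
      ring
    have hg0 : g = 0 := by
      refine Polynomial.eq_zero_of_infinite_isRoot g ?_
      refine Set.Infinite.of_image (fun w => w ^ 4 ^ m * c (v ^ q) v' m) ?_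
      refine (Set.finite_singleton (0 : K)).infinite_compl.mono fun t ht => ?_
      obtain ⟨w, h1, h2⟩ := hW t ht
      exact ⟨w, by rw [Set.mem_ofPred_eq, Polynomial.IsRoot, hge, h1], h2⟩
    have h1 := congrArg (fun p => Polynomial.coeff p (D s0) * (v ^ q) ^ (m * q)) (hg.symm.trans hg0)
    simp only [Polynomial.finsetSum_coeff, Polynomial.coeff_monomial, Polynomial.coeff_zero,
      zero_mul] at h1
    rw [← Finset.sum_filter, Finset.sum_mul] at h1
    rw [← h1]
    refine Finset.sum_congr rfl fun s hs => ?_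
    obtain ⟨r, hr⟩ := Nat.exists_eq_add_of_le (hb s (Finset.mem_filter.mp hs).1).le
    have e : (v ^ q) ^ (m * q) = ((v ^ q) ^ m) ^ s 1 * (v ^ q) ^ (m * r) := by
      rw [← pow_mul (v ^ q), ← pow_add, ← mul_add, ← hr]
    rw [e, hv', hE, div_pow]
    simp only
    rw [show q - s 1 = r by omega]
    field_simp
    ring
  obtain ⟨G, hG⟩ : ∃ G : Polynomial K, G = ∑ s ∈ H.support with D s = D s0,
    Polynomial.monomial (E s) (coeff s H) := ⟨_, rfl⟩
  have hG0 : G = 0 := by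
    refine Polynomial.eq_zero_of_infinite_isRoot G ?_
    have hfin : (({0} : Set K) ∪ ⋃ i ∈ Finset.range k, {v : K | v ^ (q * i + 1) = 1}).Finite := by
      refine (Set.finite_singleton _).union (Set.Finite.biUnion (Finset.finite_toSet _) fun i _ => ?_)
      refine (Polynomial.nthRootsFinset (q * i + 1) (1 : K)).finite_toSet.subset fun v hv => ?_
      exact (Polynomial.mem_nthRootsFinset (by omega) _).mpr hv
    refine hfin.infinite_compl.mono fun v hv => ?_
    simp only [Set.mem_compl_iff, Set.mem_union, Set.mem_singleton_iff, Set.mem_iUnion,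
      Finset.mem_range, Set.mem_ofPred_eq, not_or, not_exists] at hv
    rw [Set.mem_ofPred_eq, Polynomial.IsRoot, hG, Polynomial.eval_finsetSum]
    simp only [Polynomial.eval_monomial]
    exact good v hv.1 fun i hi => by rw [← pow_mul, ← pow_succ]; exact hv.2 i hi
  have h1 := congrArg (fun p => Polynomial.coeff p (E s0)) (hG.symm.trans hG0)
  simp only [Polynomial.finsetSum_coeff, Polynomial.coeff_monomial, Polynomial.coeff_zero] at h1
  rw [Finset.sum_eq_single s0, if_pos rfl] at h1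
  · exact mem_support_iff.mp hs0 h1
  · intro s hs hne
    rw [if_neg]
    intro he
    apply hne
    obtain ⟨h2, h3⟩ := Finset.mem_filter.mp hs
    simp only [hE, hD] at he h3
    have e1 : s 1 = s0 1 := by
      have := congrArg (· % q) he
      simpa [Nat.mod_eq_of_lt (hb s h2), Nat.mod_eq_of_lt (hb s0 hs0)] using this
    rw [e1, add_right_inj] at he
    have e0 := Nat.eq_of_mul_eq_mul_left (by omega) he
    ext i
    fin_cases i
    · simp only [Fin.zero_eta]; omega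
    · exact e1
    · simp only [Fin.reduceFinMk]; omega
  · intro h
    exact absurd (Finset.mem_filter.mpr ⟨hs0, rfl⟩ : s0 ∈ H.support.filter fun s => D s = D s0) h

end Pool.Agent.H.MP_b41bf9_ag
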